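import Pool.Agent.H44LM.F

/-!
# A locally minimal Polish abelian group without non-trivial closed zero-dimensional subgroups

`G = {z ∈ ℤ₂ : ν(z) < ∞}`, `ν(z) = ∑_i ‖z / 2^{(i+1)!}‖^{1/i!}`, where `‖·‖` is the distance to the
nearest integer, with the topology given by the group norm `ν`. This is a Polish group. It is
locally minimal (a gliding hump argument), its closed subgroups are `0` and `G ∩ 2^v ℤ₂`, and the
latter are not zero-dimensional by Erdős' argument; but `G` is totally disconnected and not
discrete, so it is not a Lie group.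
-/

set_option autoImplicit false

open scoped Topology
open Filter TopologicalSpace

namespace Pool.Agent.Results.MP_54b62b_gt.TwoAdicErdosGroup

/-- `G` is locally minimal: some neighbourhood `V` of `0` is a neighbourhood of `0` in no strictly
coarser Hausdorff group topology. -/
def LocallyMinimal (G : Type) [AddCommGroup G] [τ : TopologicalSpace G] : Prop :=
  ∃ V ∈ 𝓝 (0 : G), ∀ σ : TopologicalSpace G,
    @IsTopologicalAddGroup G σ _ → @T2Space G σ → τ ≤ σ → V ∈ @nhds G σ 0 → σ = τ

/-- Every Cauchy sequence (for the group uniformity) converges. -/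
def SequentiallyComplete (G : Type) [AddCommGroup G] [TopologicalSpace G] : Prop :=
  ∀ u : ℕ → G, (∀ W ∈ 𝓝 (0 : G), ∃ N, ∀ m ≥ N, ∀ n ≥ N, u m - u n ∈ W) →
    ∃ a, Tendsto u atTop (𝓝 a)

/-- The space is nonempty and has a base of clopen sets. -/
def ZeroDimensional (X : Type) [TopologicalSpace X] : Prop :=
  Nonempty X ∧ ∀ x : X, ∀ U ∈ 𝓝 x, ∃ C : Set X, IsClopen C ∧ x ∈ C ∧ C ⊆ U

/-- Every point has an open neighbourhood homeomorphic to an open subset of some `ℝⁿ`; this is what
makes a topological group a Lie group. -/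
def LocallyEuclidean (X : Type) [TopologicalSpace X] : Prop :=
  ∀ x : X, ∃ n : ℕ, ∃ e : OpenPartialHomeomorph X (EuclideanSpace ℝ (Fin n)), x ∈ e.source

/-- The answers to Q1 and Q2 are negative. -/
theorem result :
    (¬ ∀ (G : Type) [AddCommGroup G] [TopologicalSpace G] [IsTopologicalAddGroup G] [T2Space G],
        LocallyMinimal G → SequentiallyComplete G →
        (∀ H : AddSubgroup G, IsClosed (H : Set G) → ZeroDimensional H → Finite H) →
        LocallyEuclidean G) ∧
    (¬ ∀ (G : Type) [AddCommGroup G] [TopologicalSpace G] [IsTopologicalAddGroup G] [T2Space G],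
        LocallyMinimal G → SequentiallyComplete G →
        (∀ H : AddSubgroup G, IsClosed (H : Set G) → MetrizableSpace H → ZeroDimensional H →
          Finite H) →
        LocallyEuclidean G) ∧
    ∃ (G : Type) (_ : AddCommGroup G) (_ : TopologicalSpace G),
      IsTopologicalAddGroup G ∧ PolishSpace G ∧ TotallyDisconnectedSpace G ∧
      LocallyMinimal G ∧ SequentiallyComplete G ∧
      (∃ V ∈ 𝓝 (0 : G), ∀ H : AddSubgroup G, (H : Set G) ⊆ V → H = ⊥) ∧
      (∀ H : AddSubgroup G, IsClosed (H : Set G) → ZeroDimensional H → H = ⊥) ∧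
      ¬ LocallyEuclidean G := by
  have hLM : LocallyMinimal Pool.Agent.H44LM.Gp := Pool.Agent.H44LM.locMin
  have hSC : SequentiallyComplete Pool.Agent.H44LM.Gp := by
    intro u hu
    refine Pool.Agent.H44LM.complete_seq u ?_
    rw [Metric.cauchySeq_iff]
    intro ε hε
    obtain ⟨N, hN⟩ := hu (Metric.ball 0 ε) (Metric.ball_mem_nhds _ hε)
    refine ⟨N, fun m hm n hn => ?_⟩
    have := hN m hm n hn
    rw [mem_ball_zero_iff] at this
    rwa [dist_eq_norm]
  have hZ : ∀ H : AddSubgroup Pool.Agent.H44LM.Gp, IsClosed (H : Set Pool.Agent.H44LM.Gp) →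
      ZeroDimensional H → H = ⊥ := by
    intro H hH hz
    by_contra hne
    exact Pool.Agent.H44LM.not_zeroDim H hH hne hz.2
  have hZf : ∀ H : AddSubgroup Pool.Agent.H44LM.Gp, IsClosed (H : Set Pool.Agent.H44LM.Gp) →
      ZeroDimensional H → Finite H := by
    intro H hH hz
    rw [hZ H hH hz]
    infer_instance
  have hE : ¬ LocallyEuclidean Pool.Agent.H44LM.Gp := by
    intro h
    obtain ⟨n, e, he⟩ := h 0
    exact Pool.Agent.H44LM.not_euclidean n e he
  refine ⟨fun h => hE (h Pool.Agent.H44LM.Gp hLM hSC hZf),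
    fun h => hE (h Pool.Agent.H44LM.Gp hLM hSC fun H hH _ hz => hZf H hH hz),
    Pool.Agent.H44LM.Gp, inferInstance, inferInstance, inferInstance, inferInstance, inferInstance,
    hLM, hSC, ?_, hZ, hE⟩
  refine ⟨Metric.ball 0 (1 / 4), Metric.ball_mem_nhds _ (by norm_num), fun H hH => ?_⟩
  rw [AddSubgroup.eq_bot_iff_forall]
  exact Pool.Agent.H44LM.no_small_subgroup H fun x hx => by simpa using hH hx

end Pool.Agent.Results.MP_54b62b_gt.TwoAdicErdosGroup
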